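import Pool.Agent.Lib.MP_905f9a_lc.D.Bridge
import Pool.Agent.Lib.MP_905f9a_lc.Fn.InD
import Pool.Agent.Lib.MP_905f9a_lc.Fn.NoHom

namespace Pool.Agent.Results.MP_905f9a_lc.BothConventions

open FirstOrder Pool.Agent.Lib.MP_905f9a_lc

universe u v

/-- The answer under both conventions on signatures: yes for relational signatures, no when
function symbols are allowed. -/
theorem result :
    (∀ (L : FirstOrder.Language.{u, v}) [L.IsRelational] [Countable L.Symbols]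
      (A : Type) [L.Structure A] [Countable A], Fn.InDF L A →
      ∃ (B : Type) (_ : L.Structure B), Fn.InterpF FirstOrder.Language.empty ℕ ∅ L B ∧
        Nonempty (A →[L] B) ∧ Nonempty (B →[L] A)) ∧
    ∃ (L : FirstOrder.Language.{0, 0}) (_ : Finite L.Symbols) (A : Type)
      (_ : L.Structure A), Countable A ∧ Infinite A ∧ Fn.InDF L A ∧
        ∀ (B : Type) [L.Structure B] (P : Finset ℕ),
          Fn.InterpF FirstOrder.Language.empty ℕ (P : Set ℕ) L B →
            ¬ (Nonempty (A →[L] B) ∧ Nonempty (B →[L] A)) := by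
  refine ⟨fun L _ _ A _ _ h => ?_, Fn.LL, Fn.LL_finite, Fn.Cv, inferInstance, inferInstance,
    inferInstance, Fn.cv_inDF, fun B _ P hB ⟨⟨g⟩, ⟨h⟩⟩ => Fn.no_hom B P hB g h⟩
  obtain ⟨hst, ρ, h1, h2⟩ := D.main_D (L := L) (A := A) ⟨h.1, h.2.1,
    fun L' _ _ X _ P ⟨d, S, f, k1, k2, k3, k4⟩ =>
      h.2.2 L' X P ⟨d, S, f, k1, k2, k3, k4, fun _ F => isEmptyElim F⟩⟩
  obtain ⟨B, _, ⟨d, S, f, k1, k2, k3, k4⟩, k⟩ := main_nice h1 h2 hst
  exact ⟨B, _, ⟨d, S, f, k1, k2, k3, k4, fun _ F => isEmptyElim F⟩, k⟩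

end Pool.Agent.Results.MP_905f9a_lc.BothConventions
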