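import Pool.Agent.Lib.MP_905f9a_lc.Fn.InD
import Pool.Agent.Lib.MP_905f9a_lc.Fn.NoHom

namespace Pool.Agent.Results.MP_905f9a_lc.FunctionSymbolsFail

open FirstOrder Pool.Agent.Lib.MP_905f9a_lc

/-- With function symbols in the signature there is a countably infinite structure in Lachlan's
class that is homomorphically equivalent to no structure interpretable in `(ℕ; =)`. -/
theorem result : ∃ (L : FirstOrder.Language.{0, 0}) (_ : Finite L.Symbols) (A : Type)
    (_ : L.Structure A), Countable A ∧ Infinite A ∧ Fn.InDF L A ∧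
      ∀ (B : Type) [L.Structure B] (P : Finset ℕ),
        Fn.InterpF FirstOrder.Language.empty ℕ (P : Set ℕ) L B →
          ¬ (Nonempty (A →[L] B) ∧ Nonempty (B →[L] A)) :=
  ⟨Fn.LL, Fn.LL_finite, Fn.Cv, inferInstance, inferInstance, inferInstance, Fn.cv_inDF,
    fun B _ P hB ⟨⟨g⟩, ⟨h⟩⟩ => Fn.no_hom B P hB g h⟩

end Pool.Agent.Results.MP_905f9a_lc.FunctionSymbolsFail
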