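import Pool.Agent.Lib.MP_905f9a_lc.Source

namespace Pool.Agent.Results.MP_905f9a_lc.HomEquivOverEquality

open FirstOrder Pool.Agent.Lib.MP_905f9a_lc

universe u v

/-- Every stable relational structure with an interpretation in `(ℚ; <)` (finitely many
parameters allowed) is homomorphically equivalent to a structure with a parameter-free
interpretation in `(ℕ; =)`. -/
theorem result (L : FirstOrder.Language.{u, v}) [L.IsRelational] (A : Type) [L.Structure A]
    (hst : IsStable L A) (P : Finset ℚ) (hint : Interp ltLang ℚ (P : Set ℚ) L A) :
    ∃ (B : Type) (_ : L.Structure B), Interp FirstOrder.Language.empty ℕ ∅ L B ∧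
      Nonempty (A →[L] B) ∧ Nonempty (B →[L] A) := by
  obtain ⟨_, ρ, h1, h2⟩ := source P hint
  exact main_nice h1 h2 hst

end Pool.Agent.Results.MP_905f9a_lc.HomEquivOverEquality
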