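import Pool.Agent.Lib.MP_905f9a_lc.D.Bridge

namespace Pool.Agent.Results.MP_905f9a_lc.LachlanClass

open FirstOrder Pool.Agent.Lib.MP_905f9a_lc

universe u v

/-- Every countable relational structure in Lachlan's class is homomorphically equivalent to a
structure with a parameter-free interpretation in `(ℕ; =)`. -/
theorem result (L : FirstOrder.Language.{u, v}) [L.IsRelational] [Countable L.Symbols]
    (A : Type) [L.Structure A] [Countable A] (h : D.InD L A) :
    ∃ (B : Type) (_ : L.Structure B), Interp FirstOrder.Language.empty ℕ ∅ L B ∧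
      Nonempty (A →[L] B) ∧ Nonempty (B →[L] A) := by
  obtain ⟨hst, ρ, h1, h2⟩ := D.main_D h
  exact main_nice h1 h2 hst

end Pool.Agent.Results.MP_905f9a_lc.LachlanClass
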